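import Mathlib

/-!
MP_6bd626_an, Q1: there is a G-space failing the G-equivariant dual lifting property.

The space is the plane with its full linear automorphism group (three elements of order
three suffice).  The idea is an identity between medians of linear forms.
-/

namespace Pool.Agent.Results.MP_6bd626_an.NoEquivariantProjection

open scoped NNReal

/-- `Lip_0(X)`: real Lipschitz functions on `X` vanishing at `0`. -/
def Lip0 (X : Type) [NormedAddCommGroup X] [NormedSpace ℝ X] : Submodule ℝ (X → ℝ) where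
  carrier := {f | f 0 = 0 ∧ ∃ K : ℝ≥0, LipschitzWith K f}
  add_mem' := by
    rintro f g ⟨hf, K, hK⟩ ⟨hg, L, hL⟩
    exact ⟨by simp [hf, hg], K + L, hK.add hL⟩
  zero_mem' := ⟨rfl, 0, LipschitzWith.const 0⟩
  smul_mem' := by
    rintro c f ⟨hf, K, hK⟩
    refine ⟨by simp [hf], ‖c‖₊ * K, ?_⟩
    refine LipschitzWith.of_dist_le_mul fun x y => ?_
    have := hK.dist_le_mul x y
    simp only [Pi.smul_apply, smul_eq_mul, Real.dist_eq, NNReal.coe_mul, coe_nnnorm,
      Real.norm_eq_abs, ← mul_sub, abs_mul] at *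
    rw [mul_assoc]
    exact mul_le_mul_of_nonneg_left this (abs_nonneg c)

/-- A continuous linear functional viewed as an element of `Lip_0(X)`. -/
def ofFunctional {X : Type} [NormedAddCommGroup X] [NormedSpace ℝ X] (φ : X →L[ℝ] ℝ) :
    Lip0 X :=
  ⟨fun x => φ x, by simp, ‖φ‖₊, φ.lipschitz⟩

/-- Composition of an element of `Lip_0(X)` with a bounded linear automorphism. -/
def comp {X : Type} [NormedAddCommGroup X] [NormedSpace ℝ X] (f : Lip0 X) (e : X ≃L[ℝ] X) :
    Lip0 X :=
  ⟨fun x => f.1 (e x), by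
    obtain ⟨h0, K, hK⟩ := f.2
    refine ⟨by simpa using h0, K * ‖(e : X →L[ℝ] X)‖₊, ?_⟩
    exact hK.comp (e : X →L[ℝ] X).lipschitz⟩

/-- The `G`-equivariant dual lifting property of the `G`-space `X`, where the group `G` acts
through `ρ`: there is a linear projection `P` of `Lip_0(X)` onto `X^*`, bounded for the
Lipschitz norm, such that `P (f ∘ g⁻¹) = (P f) ∘ g⁻¹` for all `f` and `g`. -/
def EquivariantDualLifting (G : Type) [Group G] (X : Type) [NormedAddCommGroup X]
    [NormedSpace ℝ X] (ρ : G →* (X ≃L[ℝ] X)) : Prop :=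
  ∃ P : Lip0 X →ₗ[ℝ] (X →L[ℝ] ℝ),
    (∃ C : ℝ, ∀ (f : Lip0 X) (K : ℝ≥0), LipschitzWith K f.1 → ‖P f‖ ≤ C * K) ∧
    (∀ φ : X →L[ℝ] ℝ, P (ofFunctional φ) = φ) ∧
    (∀ (g : G) (f : Lip0 X), P (comp f (ρ g⁻¹)) = (P f).comp (ρ g⁻¹ : X →L[ℝ] X))

/-- The median of three reals. -/
noncomputable def med (a b c : ℝ) : ℝ := max (min a b) (min (max a b) c)

lemma med_rot (a b c : ℝ) : med b c a = med a b c := by
  unfold med
  rcases le_total a b with h1 | h1 <;> rcases le_total b c with h2 | h2 <;>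
    rcases le_total a c with h3 | h3 <;> simp [h1, h2, h3]
  all_goals linarith

lemma med_id (x y : ℝ) :
    med (-(x + 2 * y)) (2 * x + y) (y - x) + med (2 * y - x) (2 * x - y) (-x - y)
      + med (x - 3 * y) (x + 3 * y) (-(2 * x)) = -x := by
  unfold med
  simp only [max_def, min_def]
  split_ifs <;> linarith

/-- The linear form `(x, y) ↦ a x + b y`. -/
noncomputable def form (a b : ℝ) : (ℝ × ℝ) →L[ℝ] ℝ :=
  a • ContinuousLinearMap.fst ℝ ℝ ℝ + b • ContinuousLinearMap.snd ℝ ℝ ℝ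

@[simp] lemma form_apply (a b : ℝ) (v : ℝ × ℝ) : form a b v = a * v.1 + b * v.2 := by
  simp [form]

/-- The linear map of the plane with matrix rows `(a, b)` and `(c, d)`. -/
noncomputable def lin (a b c d : ℝ) : (ℝ × ℝ) →L[ℝ] (ℝ × ℝ) := (form a b).prod (form c d)

@[simp] lemma lin_apply (a b c d : ℝ) (v : ℝ × ℝ) :
    lin a b c d v = (a * v.1 + b * v.2, c * v.1 + d * v.2) := by
  simp [lin]

/-- The median of three linear forms, as an element of `Lip_0`. -/
noncomputable def medFun (a b c : (ℝ × ℝ) →L[ℝ] ℝ) : Lip0 (ℝ × ℝ) :=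
  ⟨fun v => med (a v) (b v) (c v), by simp [med], _,
    (a.lipschitz.min b.lipschitz).max ((a.lipschitz.max b.lipschitz).min c.lipschitz)⟩

/-- An automorphism of the plane given by a matrix and its inverse. -/
noncomputable def auto (a b c d a' b' c' d' : ℝ)
    (h1 : a' * a + b' * c = 1 ∧ a' * b + b' * d = 0 ∧ c' * a + d' * c = 0 ∧ c' * b + d' * d = 1)
    (h2 : a * a' + b * c' = 1 ∧ a * b' + b * d' = 0 ∧ c * a' + d * c' = 0 ∧
      c * b' + d * d' = 1) :
    (ℝ × ℝ) ≃L[ℝ] (ℝ × ℝ) :=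
  ContinuousLinearEquiv.equivOfInverse (lin a b c d) (lin a' b' c' d')
    (fun v => by
      obtain ⟨k1, k2, k3, k4⟩ := h1
      ext
      · simp only [lin_apply]
        linear_combination v.1 * k1 + v.2 * k2
      · simp only [lin_apply]
        linear_combination v.1 * k3 + v.2 * k4)
    (fun v => by
      obtain ⟨k1, k2, k3, k4⟩ := h2
      ext
      · simp only [lin_apply]
        linear_combination v.1 * k1 + v.2 * k2
      · simp only [lin_apply]
        linear_combination v.1 * k3 + v.2 * k4)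

lemma zero_of_invariant
    (P : Lip0 (ℝ × ℝ) →ₗ[ℝ] ((ℝ × ℝ) →L[ℝ] ℝ))
    (hP : ∀ (g : (ℝ × ℝ) ≃L[ℝ] (ℝ × ℝ)) (f : Lip0 (ℝ × ℝ)),
      P (comp f g⁻¹) = (P f).comp (g⁻¹ : (ℝ × ℝ) ≃L[ℝ] (ℝ × ℝ)).toContinuousLinearMap)
    (a b c : (ℝ × ℝ) →L[ℝ] ℝ) (e : (ℝ × ℝ) ≃L[ℝ] (ℝ × ℝ))
    (h1 : ∀ v, a (e v) = b v) (h2 : ∀ v, b (e v) = c v) (h3 : ∀ v, c (e v) = a v)
    (h4 : ∀ v, v + e v + e (e v) = 0) :
    P (medFun a b c) = 0 := by
  have key : P (medFun a b c) = (P (medFun a b c)).comp (e : (ℝ × ℝ) →L[ℝ] (ℝ × ℝ)) := by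
    have h := hP e⁻¹ (medFun a b c)
    rw [inv_inv] at h
    have h' : comp (medFun a b c) e = medFun a b c := by
      apply Subtype.ext
      funext v
      change med (a (e v)) (b (e v)) (c (e v)) = med (a v) (b v) (c v)
      rw [h1, h2, h3, med_rot]
    rw [h'] at h
    exact h
  refine ContinuousLinearMap.ext fun v => ?_
  have k1 : P (medFun a b c) v = P (medFun a b c) (e v) := by
    conv_lhs => rw [key]
    rfl
  have k2 : P (medFun a b c) (e v) = P (medFun a b c) (e (e v)) := by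
    conv_lhs => rw [key]
    rfl
  have k3 : P (medFun a b c) (v + e v + e (e v)) = 0 := by rw [h4]; simp
  simp only [map_add] at k3
  have : P (medFun a b c) v = 0 := by linarith
  simpa using this

/-- **Answer to Q1: yes.** There are a group `G` and a `G`-space `X` (a real Banach space with
an action of `G` by bounded linear automorphisms) that fails the `G`-equivariant dual lifting
property. -/
theorem result :
    ∃ (G : Type) (_ : Group G) (X : Type) (_ : NormedAddCommGroup X) (_ : NormedSpace ℝ X)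
      (_ : CompleteSpace X) (ρ : G →* (X ≃L[ℝ] X)), ¬ EquivariantDualLifting G X ρ := by
  refine ⟨(ℝ × ℝ) ≃L[ℝ] (ℝ × ℝ), inferInstance, ℝ × ℝ, inferInstance, inferInstance,
    inferInstance, MonoidHom.id _, ?_⟩
  rintro ⟨P, -, hproj, hP⟩
  have hP' : ∀ (g : (ℝ × ℝ) ≃L[ℝ] (ℝ × ℝ)) (f : Lip0 (ℝ × ℝ)),
      P (comp f g⁻¹) = (P f).comp (g⁻¹ : (ℝ × ℝ) ≃L[ℝ] (ℝ × ℝ)).toContinuousLinearMap :=
    fun g f => hP g f
  -- the three medians are killed by `P`
  have e1 : P (medFun (form (-1) (-2)) (form 2 1) (form (-1) 1)) = 0 := by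
    refine zero_of_invariant P hP' _ _ _
      (auto 0 1 (-1) (-1) (-1) (-1) 1 0 (by norm_num) (by norm_num)) ?_ ?_ ?_ ?_
    all_goals
      intro v
      simp [auto, Prod.ext_iff]
    all_goals first
      | ring1
      | (constructor <;> ring1)
  have e2 : P (medFun (form (-1) 2) (form 2 (-1)) (form (-1) (-1))) = 0 := by
    refine zero_of_invariant P hP' _ _ _
      (auto 0 (-1) 1 (-1) (-1) 1 (-1) 0 (by norm_num) (by norm_num)) ?_ ?_ ?_ ?_
    all_goals
      intro v
      simp [auto, Prod.ext_iff]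
    all_goals first
      | ring1
      | (constructor <;> ring1)
  have e3 : P (medFun (form 1 (-3)) (form 1 3) (form (-2) 0)) = 0 := by
    refine zero_of_invariant P hP' _ _ _
      (auto (-1/2) (3/2) (-1/2) (-1/2) (-1/2) (-3/2) (1/2) (-1/2)
        (by norm_num) (by norm_num)) ?_ ?_ ?_ ?_
    all_goals
      intro v
      simp [auto, Prod.ext_iff]
    all_goals first
      | ring1
      | (constructor <;> ring1)
  -- their sum is a linear functional
  have hsum : medFun (form (-1) (-2)) (form 2 1) (form (-1) 1)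
      + medFun (form (-1) 2) (form 2 (-1)) (form (-1) (-1))
      + medFun (form 1 (-3)) (form 1 3) (form (-2) 0) = ofFunctional (form (-1) 0) := by
    apply Subtype.ext
    funext v
    change med (form (-1) (-2) v) (form 2 1 v) (form (-1) 1 v)
      + med (form (-1) 2 v) (form 2 (-1) v) (form (-1) (-1) v)
      + med (form 1 (-3) v) (form 1 3 v) (form (-2) 0 v) = form (-1) 0 v
    have := med_id v.1 v.2
    simp only [form_apply]
    rw [show -1 * v.1 + -2 * v.2 = -(v.1 + 2 * v.2) by ring,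
      show (-1 : ℝ) * v.1 + 1 * v.2 = v.2 - v.1 by ring,
      show (2 : ℝ) * v.1 + 1 * v.2 = 2 * v.1 + v.2 by ring,
      show -1 * v.1 + 2 * v.2 = 2 * v.2 - v.1 by ring,
      show 2 * v.1 + -1 * v.2 = 2 * v.1 - v.2 by ring,
      show -1 * v.1 + -1 * v.2 = -v.1 - v.2 by ring,
      show 1 * v.1 + -3 * v.2 = v.1 - 3 * v.2 by ring,
      show 1 * v.1 + 3 * v.2 = v.1 + 3 * v.2 by ring,
      show -2 * v.1 + 0 * v.2 = -(2 * v.1) by ring,
      show -1 * v.1 + 0 * v.2 = -v.1 by ring]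
    exact this
  have h0 : form (-1) 0 = 0 := by
    rw [← hproj (form (-1) 0), ← hsum, map_add, map_add, e1, e2, e3]
    simp
  have h1 := congrArg (fun φ : (ℝ × ℝ) →L[ℝ] ℝ => φ (1, 0)) h0
  simp at h1

end Pool.Agent.Results.MP_6bd626_an.NoEquivariantProjection
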